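import Pool.Agent.EI28H.Ids
import Mathlib.NumberTheory.Real.GoldenRatio

set_option autoImplicit false
set_option linter.unusedSimpArgs false

/-! Fifteen equi-isoclinic planes of `ℂ ^ 6`. -/

namespace Pool.Agent.EI28H

open Pool.Agent.H32Iso Pool.Agent.H94EI

/-- the vectors of one orbit -/
noncomputable def q (z : ℂ) (c : Fin 5 → ℂ) : Fin 6 → ℂ :=
  ![c 0 * z, 0, c 1 * z ^ 2, c 2 * z ^ 5, c 3 * z ^ 4, c 4 * z ^ 3]

theorem herm_q (z y : ℂ) (c d : Fin 5 → ℂ) : herm (q z c) (q y d) =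
    (starRingEnd ℂ) (c 0) * d 0 * ((starRingEnd ℂ) z * y)
    + (starRingEnd ℂ) (c 1) * d 1 * ((starRingEnd ℂ) z * y) ^ 2
    + (starRingEnd ℂ) (c 2) * d 2 * ((starRingEnd ℂ) z * y) ^ 5
    + (starRingEnd ℂ) (c 3) * d 3 * ((starRingEnd ℂ) z * y) ^ 4
    + (starRingEnd ℂ) (c 4) * d 4 * ((starRingEnd ℂ) z * y) ^ 3 := by
  rw [herm_six]
  simp [q]
  ring

theorem herm_qJ (z y : ℂ) (c d : Fin 5 → ℂ) (hy : (starRingEnd ℂ) y = y ^ 6) (hy7 : y ^ 7 = 1) :
    herm (q z c) (Jv (q y d)) =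
    - (starRingEnd ℂ) (c 1) * (starRingEnd ℂ) (d 2) * ((starRingEnd ℂ) z * y) ^ 2
    + (starRingEnd ℂ) (c 2) * (starRingEnd ℂ) (d 1) * ((starRingEnd ℂ) z * y) ^ 5
    - (starRingEnd ℂ) (c 3) * (starRingEnd ℂ) (d 4) * ((starRingEnd ℂ) z * y) ^ 4
    + (starRingEnd ℂ) (c 4) * (starRingEnd ℂ) (d 3) * ((starRingEnd ℂ) z * y) ^ 3 := by
  have e2 : ((starRingEnd ℂ) y) ^ 2 = y ^ 5 := by
    rw [hy]
    linear_combination y ^ 5 * hy7
  have e3 : ((starRingEnd ℂ) y) ^ 3 = y ^ 4 := by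
    rw [hy]
    linear_combination (y ^ 4 + y ^ 11) * hy7
  have e4 : ((starRingEnd ℂ) y) ^ 4 = y ^ 3 := by
    rw [hy]
    linear_combination (y ^ 3 + y ^ 10 + y ^ 17) * hy7
  have e5 : ((starRingEnd ℂ) y) ^ 5 = y ^ 2 := by
    rw [hy]
    linear_combination (y ^ 2 + y ^ 9 + y ^ 16 + y ^ 23) * hy7
  rw [herm_six]
  simp only [Jv, q, Matrix.cons_val_zero, Matrix.cons_val_one, Matrix.cons_val, map_mul, map_pow,
    map_zero, neg_zero, mul_zero, zero_mul, zero_add, e2, e3, e4, e5]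
  ring

/-- the golden ratio -/
noncomputable def g : ℂ := (Real.goldenRatio : ℂ)

theorem g_sq : g ^ 2 = g + 1 := by
  unfold g
  have := Real.goldenRatio_sq
  exact_mod_cast this

theorem conj_g : (starRingEnd ℂ) g = g := Complex.conj_ofReal _

/-- coefficients of the first orbit -/
noncomputable def cv : Fin 5 → ℂ :=
  ![2, 1 + g * Complex.I, 1 - g * Complex.I, 1 + (g - 1) * Complex.I, 1 + (g - 1) * Complex.I]

/-- coefficients of the second orbit -/
noncomputable def cw : Fin 5 → ℂ :=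
  ![2, 1 - (g - 1) * Complex.I, 1 + (g - 1) * Complex.I, -1 + g * Complex.I, -1 + g * Complex.I]

theorem A_vv (z y : ℂ) {t : ℂ} (ht : (starRingEnd ℂ) z * y = t) : herm (q z cv) (q y cv) =
    (4) * t + (2) * t ^ 2 + (1) * t ^ 2 * g + (3) * t ^ 3 + (-1) * t ^ 3 * g + (3) * t ^ 4 +
    (-1) * t ^ 4 * g + (2) * t ^ 5 + (1) * t ^ 5 * g := by
  rw [herm_q, ht]
  simp only [cv, cw, Matrix.cons_val_zero, Matrix.cons_val_one, Matrix.cons_val, map_add, map_sub,
    map_neg, map_mul, map_one, Complex.conj_I, conj_g, Complex.conj_ofNat]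
  linear_combination ((-1) * t ^ 2 * g ^ 2 + (-1) * t ^ 3 + (2) * t ^ 3 * g + (-1) * t ^ 3 * g ^ 2 + (-1) * t ^ 4 +
    (2) * t ^ 4 * g + (-1) * t ^ 4 * g ^ 2 + (-1) * t ^ 5 * g ^ 2) * Complex.I_sq + (
    (1) * t ^ 2 + (1) * t ^ 3 + (1) * t ^ 4 + (1) * t ^ 5) * g_sq

theorem B_vv (z y : ℂ) (hy : (starRingEnd ℂ) y = y ^ 6) (hy7 : y ^ 7 = 1) {t : ℂ}
    (ht : (starRingEnd ℂ) z * y = t) : herm (q z cv) (Jv (q y cv)) =
    (-2) * t ^ 2 + (-1) * t ^ 2 * g + (-1) * t ^ 3 + (2) * t ^ 3 * Complex.I + (1) * t ^ 3 * g +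
    (-2) * t ^ 3 * g * Complex.I + (1) * t ^ 4 + (-2) * t ^ 4 * Complex.I + (-1) * t ^ 4 * g +
    (2) * t ^ 4 * g * Complex.I + (2) * t ^ 5 + (1) * t ^ 5 * g := by
  rw [herm_qJ z y cv cv hy hy7, ht]
  simp only [cv, cw, Matrix.cons_val_zero, Matrix.cons_val_one, Matrix.cons_val, map_add, map_sub,
    map_neg, map_mul, map_one, Complex.conj_I, conj_g, Complex.conj_ofNat]
  linear_combination ((1) * t ^ 2 * g ^ 2 + (1) * t ^ 3 + (-2) * t ^ 3 * g + (1) * t ^ 3 * g ^ 2 + (-1) * t ^ 4 +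
    (2) * t ^ 4 * g + (-1) * t ^ 4 * g ^ 2 + (-1) * t ^ 5 * g ^ 2) * Complex.I_sq + (
    (-1) * t ^ 2 + (-1) * t ^ 3 + (1) * t ^ 4 + (1) * t ^ 5) * g_sq

theorem A_ww (z y : ℂ) {t : ℂ} (ht : (starRingEnd ℂ) z * y = t) : herm (q z cw) (q y cw) =
    (4) * t + (3) * t ^ 2 + (-1) * t ^ 2 * g + (2) * t ^ 3 + (1) * t ^ 3 * g + (2) * t ^ 4 +
    (1) * t ^ 4 * g + (3) * t ^ 5 + (-1) * t ^ 5 * g := by
  rw [herm_q, ht]
  simp only [cv, cw, Matrix.cons_val_zero, Matrix.cons_val_one, Matrix.cons_val, map_add, map_sub,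
    map_neg, map_mul, map_one, Complex.conj_I, conj_g, Complex.conj_ofNat]
  linear_combination ((-1) * t ^ 2 + (2) * t ^ 2 * g + (-1) * t ^ 2 * g ^ 2 + (-1) * t ^ 3 * g ^ 2 +
    (-1) * t ^ 4 * g ^ 2 + (-1) * t ^ 5 + (2) * t ^ 5 * g + (-1) * t ^ 5 * g ^ 2) * Complex.I_sq + (
    (1) * t ^ 2 + (1) * t ^ 3 + (1) * t ^ 4 + (1) * t ^ 5) * g_sq

theorem B_ww (z y : ℂ) (hy : (starRingEnd ℂ) y = y ^ 6) (hy7 : y ^ 7 = 1) {t : ℂ}
    (ht : (starRingEnd ℂ) z * y = t) : herm (q z cw) (Jv (q y cw)) =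
    (-3) * t ^ 2 + (1) * t ^ 2 * g + (-1) * t ^ 3 * g + (2) * t ^ 3 * g * Complex.I +
    (1) * t ^ 4 * g + (-2) * t ^ 4 * g * Complex.I + (3) * t ^ 5 + (-1) * t ^ 5 * g := by
  rw [herm_qJ z y cw cw hy hy7, ht]
  simp only [cv, cw, Matrix.cons_val_zero, Matrix.cons_val_one, Matrix.cons_val, map_add, map_sub,
    map_neg, map_mul, map_one, Complex.conj_I, conj_g, Complex.conj_ofNat]
  linear_combination ((1) * t ^ 2 + (-2) * t ^ 2 * g + (1) * t ^ 2 * g ^ 2 + (1) * t ^ 3 * g ^ 2 +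
    (-1) * t ^ 4 * g ^ 2 + (-1) * t ^ 5 + (2) * t ^ 5 * g + (-1) * t ^ 5 * g ^ 2) * Complex.I_sq + (
    (-1) * t ^ 2 + (-1) * t ^ 3 + (1) * t ^ 4 + (1) * t ^ 5) * g_sq

theorem A_vw (z y : ℂ) {t : ℂ} (ht : (starRingEnd ℂ) z * y = t) : herm (q z cv) (q y cw) =
    (4) * t + (1) * t ^ 2 * Complex.I + (-2) * t ^ 2 * g * Complex.I + (-1) * t ^ 3 * Complex.I +
    (2) * t ^ 3 * g * Complex.I + (-1) * t ^ 4 * Complex.I + (2) * t ^ 4 * g * Complex.I +
    (-1) * t ^ 5 * Complex.I + (2) * t ^ 5 * g * Complex.I := by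
  rw [herm_q, ht]
  simp only [cv, cw, Matrix.cons_val_zero, Matrix.cons_val_one, Matrix.cons_val, map_add, map_sub,
    map_neg, map_mul, map_one, Complex.conj_I, conj_g, Complex.conj_ofNat]
  linear_combination ((-1) * t ^ 2 * g + (1) * t ^ 2 * g ^ 2 + (1) * t ^ 3 * g + (-1) * t ^ 3 * g ^ 2 +
    (1) * t ^ 4 * g + (-1) * t ^ 4 * g ^ 2 + (-1) * t ^ 5 * g + (1) * t ^ 5 * g ^ 2) * Complex.I_sq + (
    (-1) * t ^ 2 + (1) * t ^ 3 + (1) * t ^ 4 + (-1) * t ^ 5) * g_sq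

theorem B_vw (z y : ℂ) (hy : (starRingEnd ℂ) y = y ^ 6) (hy7 : y ^ 7 = 1) {t : ℂ}
    (ht : (starRingEnd ℂ) z * y = t) : herm (q z cv) (Jv (q y cw)) =
    (-1) * t ^ 2 * Complex.I + (2) * t ^ 2 * g * Complex.I + (-2) * t ^ 3 +
    (-1) * t ^ 3 * Complex.I + (2) * t ^ 4 + (1) * t ^ 4 * Complex.I + (-1) * t ^ 5 * Complex.I +
    (2) * t ^ 5 * g * Complex.I := by
  rw [herm_qJ z y cv cw hy hy7, ht]
  simp only [cv, cw, Matrix.cons_val_zero, Matrix.cons_val_one, Matrix.cons_val, map_add, map_sub,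
    map_neg, map_mul, map_one, Complex.conj_I, conj_g, Complex.conj_ofNat]
  linear_combination ((1) * t ^ 2 * g + (-1) * t ^ 2 * g ^ 2 + (-1) * t ^ 3 * g + (1) * t ^ 3 * g ^ 2 +
    (1) * t ^ 4 * g + (-1) * t ^ 4 * g ^ 2 + (-1) * t ^ 5 * g + (1) * t ^ 5 * g ^ 2) * Complex.I_sq + (
    (1) * t ^ 2 + (-1) * t ^ 3 + (1) * t ^ 4 + (-1) * t ^ 5) * g_sq

theorem conj_root {z : ℂ} (hz : z ^ 7 = 1) : (starRingEnd ℂ) z = z ^ 6 := by
  have h1 : ‖z‖ = 1 := Complex.norm_eq_one_of_pow_eq_one hz (by norm_num)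
  have h2 : z * (starRingEnd ℂ) z = 1 := by
    rw [Complex.mul_conj, Complex.normSq_eq_norm_sq, h1]
    norm_num
  linear_combination z ^ 6 * h2 - (starRingEnd ℂ) z * hz

theorem prod_root {z y : ℂ} (hz : z ^ 7 = 1) (hy : y ^ 7 = 1) :
    ((starRingEnd ℂ) z * y) ^ 7 = 1 := by
  rw [conj_root hz, mul_pow, hy, ← pow_mul, mul_comm 6 7, pow_mul, hz]
  norm_num

theorem ne_one {z y : ℂ} (hz : z ^ 7 = 1) (hzy : z ≠ y) : (starRingEnd ℂ) z * y ≠ 1 := by
  intro h
  apply hzy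
  rw [conj_root hz] at h
  linear_combination y * hz - z * h

theorem sum_root {t : ℂ} (ht : t ^ 7 = 1) (h1 : t ≠ 1) :
    1 + t + t ^ 2 + t ^ 3 + t ^ 4 + t ^ 5 + t ^ 6 = 0 := by
  have h2 : (t - 1) * (1 + t + t ^ 2 + t ^ 3 + t ^ 4 + t ^ 5 + t ^ 6) = 0 := by
    linear_combination ht
  rcases mul_eq_zero.mp h2 with h | h
  · exact absurd (sub_eq_zero.mp h) h1
  · exact h

/-- the square of the cosine, up to the factor `14 ^ 2` -/
noncomputable def E (x y : Fin 6 → ℂ) : ℂ :=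
  herm x y * herm y x + herm x (Jv y) * herm (Jv y) x

theorem E_symm (x y : Fin 6 → ℂ) : E x y = E y x := by
  unfold E
  rw [herm_Jv x y, Jv_herm y x]
  ring

theorem E_vv {z y : ℂ} (hz : z ^ 7 = 1) (hy : y ^ 7 = 1) (hzy : z ≠ y) :
    E (q z cv) (q y cv) = 56 := by
  have hcy := conj_root hy
  set t : ℂ := (starRingEnd ℂ) z * y with ht
  have ht7 : t ^ 7 = 1 := prod_root hz hy
  set T : ℂ := (starRingEnd ℂ) t with hT
  have hTt : T = t ^ 6 := conj_root ht7
  have a1 := A_vv z y ht.symm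
  have b1 := B_vv z y hcy hy ht.symm
  have a2 : herm (q y cv) (q z cv) =
      (4) * T + (2) * T ^ 2 + (1) * T ^ 2 * g + (3) * T ^ 3 + (-1) * T ^ 3 * g + (3) * T ^ 4 +
      (-1) * T ^ 4 * g + (2) * T ^ 5 + (1) * T ^ 5 * g := by
    rw [← conj_herm, a1]
    simp only [map_add, map_mul, map_neg, map_pow, map_one, Complex.conj_I, conj_g, ← hT,
      Complex.conj_ofNat]
  have b2 : herm (Jv (q y cv)) (q z cv) =
      (-2) * T ^ 2 + (-1) * T ^ 2 * g + (-1) * T ^ 3 + (-2) * T ^ 3 * Complex.I +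
      (1) * T ^ 3 * g + (2) * T ^ 3 * g * Complex.I + (1) * T ^ 4 + (2) * T ^ 4 * Complex.I +
      (-1) * T ^ 4 * g + (-2) * T ^ 4 * g * Complex.I + (2) * T ^ 5 + (1) * T ^ 5 * g := by
    rw [← conj_herm, b1]
    simp only [map_add, map_mul, map_neg, map_pow, map_one, Complex.conj_I, conj_g, ← hT,
      Complex.conj_ofNat]
    ring
  unfold E
  rw [a1, a2, b1, b2]
  exact id_vv hTt ht7 Complex.I_sq g_sq (sum_root ht7 (ne_one hz hzy))

theorem E_ww {z y : ℂ} (hz : z ^ 7 = 1) (hy : y ^ 7 = 1) (hzy : z ≠ y) :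
    E (q z cw) (q y cw) = 56 := by
  have hcy := conj_root hy
  set t : ℂ := (starRingEnd ℂ) z * y with ht
  have ht7 : t ^ 7 = 1 := prod_root hz hy
  set T : ℂ := (starRingEnd ℂ) t with hT
  have hTt : T = t ^ 6 := conj_root ht7
  have a1 := A_ww z y ht.symm
  have b1 := B_ww z y hcy hy ht.symm
  have a2 : herm (q y cw) (q z cw) =
      (4) * T + (3) * T ^ 2 + (-1) * T ^ 2 * g + (2) * T ^ 3 + (1) * T ^ 3 * g + (2) * T ^ 4 +
      (1) * T ^ 4 * g + (3) * T ^ 5 + (-1) * T ^ 5 * g := by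
    rw [← conj_herm, a1]
    simp only [map_add, map_mul, map_neg, map_pow, map_one, Complex.conj_I, conj_g, ← hT,
      Complex.conj_ofNat]
  have b2 : herm (Jv (q y cw)) (q z cw) =
      (-3) * T ^ 2 + (1) * T ^ 2 * g + (-1) * T ^ 3 * g + (-2) * T ^ 3 * g * Complex.I +
      (1) * T ^ 4 * g + (2) * T ^ 4 * g * Complex.I + (3) * T ^ 5 + (-1) * T ^ 5 * g := by
    rw [← conj_herm, b1]
    simp only [map_add, map_mul, map_neg, map_pow, map_one, Complex.conj_I, conj_g, ← hT,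
      Complex.conj_ofNat]
    ring
  unfold E
  rw [a1, a2, b1, b2]
  exact id_ww hTt ht7 Complex.I_sq g_sq (sum_root ht7 (ne_one hz hzy))

theorem E_vw {z y : ℂ} (hz : z ^ 7 = 1) (hy : y ^ 7 = 1) :
    E (q z cv) (q y cw) = 56 := by
  have hcy := conj_root hy
  set t : ℂ := (starRingEnd ℂ) z * y with ht
  have ht7 : t ^ 7 = 1 := prod_root hz hy
  set T : ℂ := (starRingEnd ℂ) t with hT
  have hTt : T = t ^ 6 := conj_root ht7
  have a1 := A_vw z y ht.symm
  have b1 := B_vw z y hcy hy ht.symm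
  have a2 : herm (q y cw) (q z cv) =
      (4) * T + (-1) * T ^ 2 * Complex.I + (2) * T ^ 2 * g * Complex.I +
      (1) * T ^ 3 * Complex.I + (-2) * T ^ 3 * g * Complex.I + (1) * T ^ 4 * Complex.I +
      (-2) * T ^ 4 * g * Complex.I + (1) * T ^ 5 * Complex.I + (-2) * T ^ 5 * g * Complex.I := by
    rw [← conj_herm, a1]
    simp only [map_add, map_mul, map_neg, map_pow, map_one, Complex.conj_I, conj_g, ← hT,
      Complex.conj_ofNat]
    ring
  have b2 : herm (Jv (q y cw)) (q z cv) =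
      (1) * T ^ 2 * Complex.I + (-2) * T ^ 2 * g * Complex.I + (-2) * T ^ 3 +
      (1) * T ^ 3 * Complex.I + (2) * T ^ 4 + (-1) * T ^ 4 * Complex.I +
      (1) * T ^ 5 * Complex.I + (-2) * T ^ 5 * g * Complex.I := by
    rw [← conj_herm, b1]
    simp only [map_add, map_mul, map_neg, map_pow, map_one, Complex.conj_I, conj_g, ← hT,
      Complex.conj_ofNat]
    ring
  unfold E
  rw [a1, a2, b1, b2]
  exact id_vw hTt ht7 Complex.I_sq g_sq

/-- the vector of the fixed plane -/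
noncomputable def u0 : Fin 6 → ℂ := ![3 + 2 * Complex.I, 1, 0, 0, 0, 0]

theorem norm_v {z : ℂ} (hz : z ^ 7 = 1) : herm (q z cv) (q z cv) = 14 := by
  have h1 : (starRingEnd ℂ) z * z = 1 := by
    rw [conj_root hz]
    linear_combination hz
  rw [A_vv z z h1]
  ring

theorem norm_w {z : ℂ} (hz : z ^ 7 = 1) : herm (q z cw) (q z cw) = 14 := by
  have h1 : (starRingEnd ℂ) z * z = 1 := by
    rw [conj_root hz]
    linear_combination hz
  rw [A_ww z z h1]
  ring

theorem norm_u : herm u0 u0 = 14 := by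
  rw [herm_six]
  simp only [u0, Matrix.cons_val_zero, Matrix.cons_val_one, Matrix.cons_val, map_add,
    map_mul, map_one, map_zero, Complex.conj_I, Complex.conj_ofNat]
  linear_combination (-4) * Complex.I_sq

theorem E_u {z : ℂ} (hz : z ^ 7 = 1) (c : Fin 5 → ℂ) (hc : c 0 = 2) : E u0 (q z c) = 56 := by
  have h1 : (starRingEnd ℂ) z * z = 1 := by
    rw [conj_root hz]
    linear_combination hz
  unfold E
  simp only [herm_six, u0, q, Jv, Matrix.cons_val_zero, Matrix.cons_val_one, Matrix.cons_val,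
    map_add, map_mul, map_one, map_zero, map_neg, map_pow, Complex.conj_I, Complex.conj_ofNat, hc,
    Complex.conj_conj]
  linear_combination (52 + 4 - 16 * (Complex.I ^ 2 + 1)) * h1 - 16 * Complex.I_sq

/-- a primitive seventh root of unity -/
noncomputable def zt : ℂ := Complex.exp (2 * Real.pi * Complex.I / (7 : ℕ))

theorem zt_prim : IsPrimitiveRoot zt 7 := Complex.isPrimitiveRoot_exp 7 (by norm_num)

/-- the seventh roots of unity -/
noncomputable def rt (i : ℕ) : ℂ := zt ^ i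

theorem rt_seven (i : ℕ) : rt i ^ 7 = 1 := by
  unfold rt
  rw [← pow_mul, mul_comm, pow_mul, zt_prim.pow_eq_one, one_pow]

theorem rt_inj {i j : ℕ} (hi : i < 7) (hj : j < 7) (h : rt i = rt j) : i = j :=
  zt_prim.pow_inj hi hj h

/-- the fifteen vectors -/
noncomputable def fam (i : Fin 15) : Fin 6 → ℂ :=
  if (i : ℕ) < 7 then q (rt i) cv else if (i : ℕ) < 14 then q (rt ((i : ℕ) - 7)) cw else u0

theorem cv0 : cv 0 = 2 := rfl
theorem cw0 : cw 0 = 2 := rfl

theorem fam_norm (i : Fin 15) : herm (fam i) (fam i) = ((14 : ℝ) : ℂ) := by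
  have e : ((14 : ℝ) : ℂ) = 14 := by norm_num
  rw [e]
  unfold fam
  split_ifs
  · exact norm_v (rt_seven _)
  · exact norm_w (rt_seven _)
  · exact norm_u

theorem fam_E (i j : Fin 15) (hij : i < j) : E (fam i) (fam j) = 56 := by
  have hij' : (i : ℕ) < j := hij
  have hj15 : (j : ℕ) < 15 := j.2
  by_cases h1 : (j : ℕ) < 7
  · have h2 : (i : ℕ) < 7 := by omega
    have e1 : fam i = q (rt i) cv := by unfold fam; rw [if_pos h2]
    have e2 : fam j = q (rt j) cv := by unfold fam; rw [if_pos h1]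
    rw [e1, e2]
    exact E_vv (rt_seven _) (rt_seven _) (fun h => by
      have := rt_inj h2 h1 h
      omega)
  by_cases h2 : (j : ℕ) < 14
  · have e2 : fam j = q (rt ((j : ℕ) - 7)) cw := by
      unfold fam; rw [if_neg h1, if_pos h2]
    by_cases h3 : (i : ℕ) < 7
    · have e1 : fam i = q (rt i) cv := by unfold fam; rw [if_pos h3]
      rw [e1, e2]
      exact E_vw (rt_seven _) (rt_seven _)
    · have h4 : (i : ℕ) < 14 := by omega
      have e1 : fam i = q (rt ((i : ℕ) - 7)) cw := by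
        unfold fam; rw [if_neg h3, if_pos h4]
      rw [e1, e2]
      exact E_ww (rt_seven _) (rt_seven _) (fun h => by
        have := rt_inj (by omega) (by omega) h
        omega)
  · have e2 : fam j = u0 := by unfold fam; rw [if_neg h1, if_neg h2]
    rw [e2, E_symm]
    by_cases h3 : (i : ℕ) < 7
    · have e1 : fam i = q (rt i) cv := by unfold fam; rw [if_pos h3]
      rw [e1]
      exact E_u (rt_seven _) cv cv0
    · have h4 : (i : ℕ) < 14 := by omega
      have e1 : fam i = q (rt ((i : ℕ) - 7)) cw := by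
        unfold fam; rw [if_neg h3, if_pos h4]
      rw [e1]
      exact E_u (rt_seven _) cw cw0

theorem fam_E' (i j : Fin 15) (hij : i ≠ j) : E (fam i) (fam j) = ((56 : ℝ) : ℂ) := by
  have e : ((56 : ℝ) : ℂ) = 56 := by norm_num
  rw [e]
  rcases lt_or_gt_of_ne hij with h | h
  · exact fam_E i j h
  · rw [E_symm]; exact fam_E j i h

theorem one_sub_gI_ne : 1 - g * Complex.I ≠ 0 := by
  intro h
  have := congrArg Complex.re h
  simp [g] at this

theorem one_add_gI_ne : 1 + g * Complex.I ≠ 0 := by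
  intro h
  have := congrArg Complex.re h
  simp [g] at this

theorem one_sub_sI_ne : 1 - (g - 1) * Complex.I ≠ 0 := by
  intro h
  have := congrArg Complex.re h
  simp [g] at this

open Polynomial in
theorem fam_span (w : Fin 6 → ℂ) (hw : ∀ i, herm (fam i) w = 0)
    (_ : ∀ i, herm (Jv (fam i)) w = 0) : w = 0 := by
  set P : ℂ[X] := C (2 * w 0) * X + C ((1 - g * Complex.I) * w 2) * X ^ 2
    + C ((1 - (g - 1) * Complex.I) * w 5) * X ^ 3 + C ((1 - (g - 1) * Complex.I) * w 4) * X ^ 4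
    + C ((1 + g * Complex.I) * w 3) * X ^ 5 with hP
  have heval : ∀ i : Fin 7, P.eval ((starRingEnd ℂ) (rt i)) = 0 := by
    intro i
    have h := hw ⟨i, by omega⟩
    have e1 : fam ⟨i, by omega⟩ = q (rt i) cv := by
      unfold fam
      exact if_pos i.2
    rw [e1, herm_six] at h
    simp only [q, cv, Matrix.cons_val_zero, Matrix.cons_val_one, Matrix.cons_val, map_add, map_sub,
      map_mul, map_one, map_zero, map_pow, Complex.conj_I, conj_g, Complex.conj_ofNat] at h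
    simp only [hP, eval_add, eval_mul, eval_C, eval_X, eval_pow]
    linear_combination h
  have hinj : Function.Injective (fun i : Fin 7 => (starRingEnd ℂ) (rt i)) := by
    intro i j hij
    have h1 : rt i = rt j := (starRingEnd ℂ).injective hij
    exact Fin.ext (rt_inj i.2 j.2 h1)
  have hdeg : P.natDegree < Fintype.card (Fin 7) := by
    have : P.natDegree ≤ 5 := by
      rw [hP]
      compute_degree
    simp only [Fintype.card_fin]
    omega
  have hzero : P = 0 :=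
    Polynomial.eq_zero_of_natDegree_lt_card_of_eval_eq_zero P hinj heval hdeg
  have c1 : P.coeff 1 = 0 := by rw [hzero]; simp
  have c2 : P.coeff 2 = 0 := by rw [hzero]; simp
  have c3 : P.coeff 3 = 0 := by rw [hzero]; simp
  have c4 : P.coeff 4 = 0 := by rw [hzero]; simp
  have c5 : P.coeff 5 = 0 := by rw [hzero]; simp
  simp only [hP, coeff_add, coeff_C_mul, coeff_X_pow, coeff_X] at c1 c2 c3 c4 c5
  norm_num at c1 c2 c3 c4 c5
  have w0 : w 0 = 0 := c1
  have w2 : w 2 = 0 := by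
    rcases c2 with h | h
    · exact absurd h one_sub_gI_ne
    · exact h
  have w5 : w 5 = 0 := by
    rcases c3 with h | h
    · exact absurd h one_sub_sI_ne
    · exact h
  have w4 : w 4 = 0 := by
    rcases c4 with h | h
    · exact absurd h one_sub_sI_ne
    · exact h
  have w3 : w 3 = 0 := by
    rcases c5 with h | h
    · exact absurd h one_add_gI_ne
    · exact h
  have hu := hw 14
  have e1 : fam 14 = u0 := by
    unfold fam
    rw [if_neg (by decide), if_neg (by decide)]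
  rw [e1, herm_six, w0, w2, w3, w4, w5] at hu
  have w1 : w 1 = 0 := by simpa [u0] using hu
  funext i
  fin_cases i
  · exact w0
  · exact w1
  · exact w2
  · exact w3
  · exact w4
  · exact w5

/-- Fifteen equi-isoclinic planes of `ℂ ^ 6` (fifteen equiangular lines of `ℍ ^ 3`). -/
theorem fifteenC : 15 ∈ sizes ℂ 2 6 :=
  quat_lines fam 14 56 (by norm_num) (by norm_num) (by norm_num) fam_norm
    (fun i j hij => fam_E' i j hij) fam_span

/-- Fifteen equi-isoclinic four-dimensional subspaces of `ℝ ^ 12`. -/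
theorem fifteenR : 15 ∈ sizes ℝ 4 12 := realify 2 6 fifteenC

end Pool.Agent.EI28H
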