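import Pool.Agent.EI28H.Planes

set_option autoImplicit false

/-! Polynomial identities for the fifteen planes (generated). -/

namespace Pool.Agent.EI28H

theorem id_vv {t T g : ℂ} (hT : T = t ^ 6) (h7 : t ^ 7 = 1) (hI : Complex.I ^ 2 = -1)
    (hg : g ^ 2 = g + 1)
    (hP : 1 + t + t ^ 2 + t ^ 3 + t ^ 4 + t ^ 5 + t ^ 6 = 0) :
    ((4) * t + (2) * t ^ 2 + (1) * t ^ 2 * g + (3) * t ^ 3 + (-1) * t ^ 3 * g + (3) * t ^ 4 + (-1) * t ^ 4 * g + (2) * t ^ 5 + (1) * t ^ 5 * g) *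
      ((4) * T + (2) * T ^ 2 + (1) * T ^ 2 * g + (3) * T ^ 3 + (-1) * T ^ 3 * g + (3) * T ^ 4 + (-1) * T ^ 4 * g + (2) * T ^ 5 + (1) * T ^ 5 * g) +
    ((-2) * t ^ 2 + (-1) * t ^ 2 * g + (-1) * t ^ 3 + (2) * t ^ 3 * Complex.I + (1) * t ^ 3 * g + (-2) * t ^ 3 * g * Complex.I + (1) * t ^ 4 + (-2) * t ^ 4 * Complex.I + (-1) * t ^ 4 * g + (2) * t ^ 4 * g * Complex.I + (2) * t ^ 5 + (1) * t ^ 5 * g) *
      ((-2) * T ^ 2 + (-1) * T ^ 2 * g + (-1) * T ^ 3 + (-2) * T ^ 3 * Complex.I + (1) * T ^ 3 * g + (2) * T ^ 3 * g * Complex.I + (1) * T ^ 4 + (2) * T ^ 4 * Complex.I + (-1) * T ^ 4 * g + (-2) * T ^ 4 * g * Complex.I + (2) * T ^ 5 + (1) * T ^ 5 * g) = 56 := by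
  rw [hT]
  linear_combination (
      (52) + (-8) * Complex.I ^ 2 + (16) * g * Complex.I ^ 2 + (8) * g ^ 2 +
      (-8) * g ^ 2 * Complex.I ^ 2 + (32) * t + (4) * t * Complex.I ^ 2 +
      (-8) * t * g * Complex.I ^ 2 + (-4) * t * g ^ 2 + (4) * t * g ^ 2 * Complex.I ^ 2 +
      (20) * t ^ 2 + (20) * t ^ 3 + (20) * t ^ 4 + (20) * t ^ 5 + (32) * t ^ 6 +
      (4) * t ^ 6 * Complex.I ^ 2 + (-8) * t ^ 6 * g * Complex.I ^ 2 + (-4) * t ^ 6 * g ^ 2 +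
      (4) * t ^ 6 * g ^ 2 * Complex.I ^ 2 + (36) * t ^ 7 + (-8) * t ^ 7 * Complex.I ^ 2 +
      (16) * t ^ 7 * g * Complex.I ^ 2 + (8) * t ^ 7 * g ^ 2 +
      (-8) * t ^ 7 * g ^ 2 * Complex.I ^ 2 + (24) * t ^ 8 + (4) * t ^ 8 * Complex.I ^ 2 +
      (-4) * t ^ 8 * g + (-8) * t ^ 8 * g * Complex.I ^ 2 + (-4) * t ^ 8 * g ^ 2 +
      (4) * t ^ 8 * g ^ 2 * Complex.I ^ 2 + (8) * t ^ 9 + (4) * t ^ 9 * g + (8) * t ^ 10 +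
      (4) * t ^ 10 * g + (12) * t ^ 11 + (-4) * t ^ 11 * g + (20) * t ^ 12 + (24) * t ^ 13 +
      (4) * t ^ 13 * Complex.I ^ 2 + (-4) * t ^ 13 * g + (-8) * t ^ 13 * g * Complex.I ^ 2 +
      (-4) * t ^ 13 * g ^ 2 + (4) * t ^ 13 * g ^ 2 * Complex.I ^ 2 + (28) * t ^ 14 +
      (-8) * t ^ 14 * Complex.I ^ 2 + (-8) * t ^ 14 * g + (16) * t ^ 14 * g * Complex.I ^ 2 +
      (6) * t ^ 14 * g ^ 2 + (-8) * t ^ 14 * g ^ 2 * Complex.I ^ 2 + (16) * t ^ 15 +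
      (4) * t ^ 15 * Complex.I + (4) * t ^ 15 * Complex.I ^ 2 + (-4) * t ^ 15 * g +
      (-2) * t ^ 15 * g * Complex.I + (-8) * t ^ 15 * g * Complex.I ^ 2 + (-2) * t ^ 15 * g ^ 2 +
      (-2) * t ^ 15 * g ^ 2 * Complex.I + (4) * t ^ 15 * g ^ 2 * Complex.I ^ 2 + (4) * t ^ 16 +
      (-4) * t ^ 16 * Complex.I + (2) * t ^ 16 * g + (2) * t ^ 16 * g * Complex.I +
      (2) * t ^ 16 * g ^ 2 * Complex.I + (8) * t ^ 17 + (4) * t ^ 17 * g + (12) * t ^ 18 +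
      (-4) * t ^ 18 * g + (8) * t ^ 19 + (4) * t ^ 19 * g + (16) * t ^ 20 +
      (-4) * t ^ 20 * Complex.I + (4) * t ^ 20 * Complex.I ^ 2 + (-4) * t ^ 20 * g +
      (2) * t ^ 20 * g * Complex.I + (-8) * t ^ 20 * g * Complex.I ^ 2 + (-2) * t ^ 20 * g ^ 2 +
      (2) * t ^ 20 * g ^ 2 * Complex.I + (4) * t ^ 20 * g ^ 2 * Complex.I ^ 2 + (18) * t ^ 21 +
      (-4) * t ^ 21 * Complex.I ^ 2 + (8) * t ^ 21 * g * Complex.I ^ 2 + (4) * t ^ 21 * g ^ 2 +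
      (-4) * t ^ 21 * g ^ 2 * Complex.I ^ 2 + (8) * t ^ 22 + (4) * t ^ 22 * Complex.I +
      (-2) * t ^ 22 * g * Complex.I + (-2) * t ^ 22 * g ^ 2 + (-2) * t ^ 22 * g ^ 2 * Complex.I +
      (8) * t ^ 24 + (4) * t ^ 24 * g + (4) * t ^ 26 + (4) * t ^ 26 * Complex.I +
      (2) * t ^ 26 * g + (-2) * t ^ 26 * g * Complex.I + (-2) * t ^ 26 * g ^ 2 * Complex.I +
      (8) * t ^ 27 + (-4) * t ^ 27 * Complex.I + (2) * t ^ 27 * g * Complex.I +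
      (-2) * t ^ 27 * g ^ 2 + (2) * t ^ 27 * g ^ 2 * Complex.I + (8) * t ^ 28 +
      (8) * t ^ 28 * g + (2) * t ^ 28 * g ^ 2) * h7 + (
      (-8) + (16) * g + (-8) * g ^ 2 + (4) * t + (-8) * t * g + (4) * t * g ^ 2 + (4) * t ^ 6 +
      (-8) * t ^ 6 * g + (4) * t ^ 6 * g ^ 2) * hI + (
      (16) + (-8) * t + (-8) * t ^ 6) * hg + 20 * hP

theorem id_ww {t T g : ℂ} (hT : T = t ^ 6) (h7 : t ^ 7 = 1) (hI : Complex.I ^ 2 = -1)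
    (hg : g ^ 2 = g + 1)
    (hP : 1 + t + t ^ 2 + t ^ 3 + t ^ 4 + t ^ 5 + t ^ 6 = 0) :
    ((4) * t + (3) * t ^ 2 + (-1) * t ^ 2 * g + (2) * t ^ 3 + (1) * t ^ 3 * g + (2) * t ^ 4 + (1) * t ^ 4 * g + (3) * t ^ 5 + (-1) * t ^ 5 * g) *
      ((4) * T + (3) * T ^ 2 + (-1) * T ^ 2 * g + (2) * T ^ 3 + (1) * T ^ 3 * g + (2) * T ^ 4 + (1) * T ^ 4 * g + (3) * T ^ 5 + (-1) * T ^ 5 * g) +
    ((-3) * t ^ 2 + (1) * t ^ 2 * g + (-1) * t ^ 3 * g + (2) * t ^ 3 * g * Complex.I + (1) * t ^ 4 * g + (-2) * t ^ 4 * g * Complex.I + (3) * t ^ 5 + (-1) * t ^ 5 * g) *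
      ((-3) * T ^ 2 + (1) * T ^ 2 * g + (-1) * T ^ 3 * g + (-2) * T ^ 3 * g * Complex.I + (1) * T ^ 4 * g + (2) * T ^ 4 * g * Complex.I + (3) * T ^ 5 + (-1) * T ^ 5 * g) = 56 := by
  rw [hT]
  linear_combination (
      (60) + (-16) * g + (8) * g ^ 2 + (-8) * g ^ 2 * Complex.I ^ 2 + (28) * t + (8) * t * g +
      (-4) * t * g ^ 2 + (4) * t * g ^ 2 * Complex.I ^ 2 + (20) * t ^ 2 + (20) * t ^ 3 +
      (20) * t ^ 4 + (20) * t ^ 5 + (28) * t ^ 6 + (8) * t ^ 6 * g + (-4) * t ^ 6 * g ^ 2 +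
      (4) * t ^ 6 * g ^ 2 * Complex.I ^ 2 + (44) * t ^ 7 + (-16) * t ^ 7 * g +
      (8) * t ^ 7 * g ^ 2 + (-8) * t ^ 7 * g ^ 2 * Complex.I ^ 2 + (16) * t ^ 8 +
      (12) * t ^ 8 * g + (-4) * t ^ 8 * g ^ 2 + (4) * t ^ 8 * g ^ 2 * Complex.I ^ 2 +
      (12) * t ^ 9 + (-4) * t ^ 9 * g + (12) * t ^ 10 + (-4) * t ^ 10 * g + (8) * t ^ 11 +
      (4) * t ^ 11 * g + (20) * t ^ 12 + (16) * t ^ 13 + (12) * t ^ 13 * g +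
      (-4) * t ^ 13 * g ^ 2 + (4) * t ^ 13 * g ^ 2 * Complex.I ^ 2 + (26) * t ^ 14 +
      (-4) * t ^ 14 * g + (6) * t ^ 14 * g ^ 2 + (-8) * t ^ 14 * g ^ 2 * Complex.I ^ 2 +
      (10) * t ^ 15 + (8) * t ^ 15 * g + (6) * t ^ 15 * g * Complex.I + (-2) * t ^ 15 * g ^ 2 +
      (-2) * t ^ 15 * g ^ 2 * Complex.I + (4) * t ^ 15 * g ^ 2 * Complex.I ^ 2 + (6) * t ^ 16 +
      (-2) * t ^ 16 * g + (-6) * t ^ 16 * g * Complex.I + (2) * t ^ 16 * g ^ 2 * Complex.I +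
      (12) * t ^ 17 + (-4) * t ^ 17 * g + (8) * t ^ 18 + (4) * t ^ 18 * g + (12) * t ^ 19 +
      (-4) * t ^ 19 * g + (10) * t ^ 20 + (8) * t ^ 20 * g + (-6) * t ^ 20 * g * Complex.I +
      (-2) * t ^ 20 * g ^ 2 + (2) * t ^ 20 * g ^ 2 * Complex.I +
      (4) * t ^ 20 * g ^ 2 * Complex.I ^ 2 + (22) * t ^ 21 + (-8) * t ^ 21 * g +
      (4) * t ^ 21 * g ^ 2 + (-4) * t ^ 21 * g ^ 2 * Complex.I ^ 2 + (6) * t ^ 22 +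
      (4) * t ^ 22 * g + (6) * t ^ 22 * g * Complex.I + (-2) * t ^ 22 * g ^ 2 +
      (-2) * t ^ 22 * g ^ 2 * Complex.I + (12) * t ^ 24 + (-4) * t ^ 24 * g + (6) * t ^ 26 +
      (-2) * t ^ 26 * g + (6) * t ^ 26 * g * Complex.I + (-2) * t ^ 26 * g ^ 2 * Complex.I +
      (6) * t ^ 27 + (4) * t ^ 27 * g + (-6) * t ^ 27 * g * Complex.I + (-2) * t ^ 27 * g ^ 2 +
      (2) * t ^ 27 * g ^ 2 * Complex.I + (18) * t ^ 28 + (-12) * t ^ 28 * g +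
      (2) * t ^ 28 * g ^ 2) * h7 + (
      (-8) * g ^ 2 + (4) * t * g ^ 2 + (4) * t ^ 6 * g ^ 2) * hI + (
      (16) + (-8) * t + (-8) * t ^ 6) * hg + 20 * hP

theorem id_vw {t T g : ℂ} (hT : T = t ^ 6) (h7 : t ^ 7 = 1) (hI : Complex.I ^ 2 = -1)
    (hg : g ^ 2 = g + 1) :
    ((4) * t + (1) * t ^ 2 * Complex.I + (-2) * t ^ 2 * g * Complex.I + (-1) * t ^ 3 * Complex.I + (2) * t ^ 3 * g * Complex.I + (-1) * t ^ 4 * Complex.I + (2) * t ^ 4 * g * Complex.I + (-1) * t ^ 5 * Complex.I + (2) * t ^ 5 * g * Complex.I) *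
      ((4) * T + (-1) * T ^ 2 * Complex.I + (2) * T ^ 2 * g * Complex.I + (1) * T ^ 3 * Complex.I + (-2) * T ^ 3 * g * Complex.I + (1) * T ^ 4 * Complex.I + (-2) * T ^ 4 * g * Complex.I + (1) * T ^ 5 * Complex.I + (-2) * T ^ 5 * g * Complex.I) +
    ((-1) * t ^ 2 * Complex.I + (2) * t ^ 2 * g * Complex.I + (-2) * t ^ 3 + (-1) * t ^ 3 * Complex.I + (2) * t ^ 4 + (1) * t ^ 4 * Complex.I + (-1) * t ^ 5 * Complex.I + (2) * t ^ 5 * g * Complex.I) *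
      ((1) * T ^ 2 * Complex.I + (-2) * T ^ 2 * g * Complex.I + (-2) * T ^ 3 + (1) * T ^ 3 * Complex.I + (2) * T ^ 4 + (-1) * T ^ 4 * Complex.I + (1) * T ^ 5 * Complex.I + (-2) * T ^ 5 * g * Complex.I) = 56 := by
  rw [hT]
  linear_combination (
      (24) + (-8) * Complex.I ^ 2 + (24) * g * Complex.I ^ 2 + (-24) * g ^ 2 * Complex.I ^ 2 +
      (-4) * t + (4) * t * g * Complex.I ^ 2 + (-4) * t * g ^ 2 * Complex.I ^ 2 + (-4) * t ^ 6 +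
      (4) * t ^ 6 * g * Complex.I ^ 2 + (-4) * t ^ 6 * g ^ 2 * Complex.I ^ 2 + (8) * t ^ 7 +
      (-8) * t ^ 7 * Complex.I ^ 2 + (24) * t ^ 7 * g * Complex.I ^ 2 +
      (-24) * t ^ 7 * g ^ 2 * Complex.I ^ 2 + (-4) * t ^ 8 + (-4) * t ^ 8 * Complex.I +
      (8) * t ^ 8 * g * Complex.I + (4) * t ^ 8 * g * Complex.I ^ 2 +
      (-4) * t ^ 8 * g ^ 2 * Complex.I ^ 2 + (4) * t ^ 9 * Complex.I +
      (-8) * t ^ 9 * g * Complex.I + (4) * t ^ 10 * Complex.I + (-8) * t ^ 10 * g * Complex.I +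
      (4) * t ^ 11 * Complex.I + (-8) * t ^ 11 * g * Complex.I + (-4) * t ^ 13 +
      (4) * t ^ 13 * Complex.I + (-8) * t ^ 13 * g * Complex.I +
      (4) * t ^ 13 * g * Complex.I ^ 2 + (-4) * t ^ 13 * g ^ 2 * Complex.I ^ 2 + (8) * t ^ 14 +
      (-6) * t ^ 14 * Complex.I ^ 2 + (16) * t ^ 14 * g * Complex.I ^ 2 +
      (-16) * t ^ 14 * g ^ 2 * Complex.I ^ 2 + (-4) * t ^ 15 + (-2) * t ^ 15 * Complex.I +
      (4) * t ^ 15 * g * Complex.I + (6) * t ^ 15 * g * Complex.I ^ 2 +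
      (-8) * t ^ 15 * g ^ 2 * Complex.I ^ 2 + (2) * t ^ 16 * Complex.I +
      (-2) * t ^ 16 * Complex.I ^ 2 + (-4) * t ^ 16 * g * Complex.I +
      (6) * t ^ 16 * g * Complex.I ^ 2 + (-4) * t ^ 16 * g ^ 2 * Complex.I ^ 2 +
      (4) * t ^ 17 * Complex.I + (-8) * t ^ 17 * g * Complex.I + (4) * t ^ 18 * Complex.I +
      (-8) * t ^ 18 * g * Complex.I + (-4) * t ^ 19 * Complex.I + (8) * t ^ 19 * g * Complex.I +
      (-4) * t ^ 20 + (2) * t ^ 20 * Complex.I + (-4) * t ^ 20 * g * Complex.I +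
      (6) * t ^ 20 * g * Complex.I ^ 2 + (-8) * t ^ 20 * g ^ 2 * Complex.I ^ 2 + (4) * t ^ 21 +
      (-4) * t ^ 21 * Complex.I ^ 2 + (12) * t ^ 21 * g * Complex.I ^ 2 +
      (-12) * t ^ 21 * g ^ 2 * Complex.I ^ 2 + (-2) * t ^ 22 * Complex.I +
      (4) * t ^ 22 * g * Complex.I + (2) * t ^ 22 * g * Complex.I ^ 2 +
      (-4) * t ^ 22 * g ^ 2 * Complex.I ^ 2 + (4) * t ^ 24 * Complex.I +
      (-8) * t ^ 24 * g * Complex.I + (-2) * t ^ 26 * Complex.I + (-2) * t ^ 26 * Complex.I ^ 2 +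
      (4) * t ^ 26 * g * Complex.I + (6) * t ^ 26 * g * Complex.I ^ 2 +
      (-4) * t ^ 26 * g ^ 2 * Complex.I ^ 2 + (2) * t ^ 27 * Complex.I +
      (-4) * t ^ 27 * g * Complex.I + (2) * t ^ 27 * g * Complex.I ^ 2 +
      (-4) * t ^ 27 * g ^ 2 * Complex.I ^ 2 + (-2) * t ^ 28 * Complex.I ^ 2 +
      (8) * t ^ 28 * g * Complex.I ^ 2 + (-8) * t ^ 28 * g ^ 2 * Complex.I ^ 2) * h7 + (
      (-8) + (24) * g + (-24) * g ^ 2 + (4) * t * g + (-4) * t * g ^ 2 + (4) * t ^ 6 * g +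
      (-4) * t ^ 6 * g ^ 2) * hI + (
      (24) + (4) * t + (4) * t ^ 6) * hg

end Pool.Agent.EI28H
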