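import Pool.Agent.H94EI.Lines

set_option autoImplicit false

/-! Equi-isoclinic planes of `ℂ ^ d` given by pairs of vectors. -/

namespace Pool.Agent.EI28H

open Module Pool.Agent.H32Iso Pool.Agent.H94EI

theorem herm_add_right {κ : Type} [Fintype κ] (x y z : κ → ℂ) :
    herm x (fun a => y a + z a) = herm x y + herm x z := by
  simp only [herm, mul_add, Finset.sum_add_distrib]

theorem herm_add_left {κ : Type} [Fintype κ] (x y z : κ → ℂ) :
    herm (fun a => x a + y a) z = herm x z + herm y z := by
  simp only [herm, map_add, add_mul, Finset.sum_add_distrib]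

theorem planes_aux {p d : ℕ} (a b : Fin p → Fin d → ℂ) (N M : ℝ) (hN : 0 < N) (hM0 : 0 ≤ M)
    (hM : M < N ^ 2)
    (haa : ∀ i, herm (a i) (a i) = N) (hbb : ∀ i, herm (b i) (b i) = N)
    (hab : ∀ i, herm (a i) (b i) = 0)
    (h1 : ∀ i j, i ≠ j →
      herm (a i) (a j) * herm (a j) (a i) + herm (a i) (b j) * herm (b j) (a i) = M)
    (h2 : ∀ i j, i ≠ j →
      herm (a i) (a j) * herm (a j) (b i) + herm (a i) (b j) * herm (b j) (b i) = 0)
    (h3 : ∀ i j, i ≠ j →
      herm (b i) (a j) * herm (a j) (a i) + herm (b i) (b j) * herm (b j) (a i) = 0)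
    (h4 : ∀ i j, i ≠ j →
      herm (b i) (a j) * herm (a j) (b i) + herm (b i) (b j) * herm (b j) (b i) = M)
    (hspan : ∀ w : Fin d → ℂ, (∀ i, herm (a i) w = 0) → (∀ i, herm (b i) w = 0) → w = 0) :
    p ∈ sizes ℂ 2 d := by
  have hN' : (N : ℂ) ≠ 0 := by exact_mod_cast hN.ne'
  have hba : ∀ i, herm (b i) (a i) = 0 := fun i => by
    rw [← conj_herm, hab, map_zero]
  set A : Fin p → Sp ℂ d := fun i => WithLp.toLp 2 (a i) with hA
  set B : Fin p → Sp ℂ d := fun i => WithLp.toLp 2 (b i) with hB
  have hAa : ∀ i, (fun c => A i c) = a i := fun i => rfl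
  have hBb : ∀ i, (fun c => B i c) = b i := fun i => rfl
  have hcomb : ∀ (i : Fin p) (s t : ℂ), (fun c => (s • A i + t • B i) c) =
      fun c => s * a i c + t * b i c := fun i s t => rfl
  have hR : ∀ (x : Fin d → ℂ) (i : Fin p) (s t : ℂ),
      herm x (fun c => (s • A i + t • B i) c) = s * herm x (a i) + t * herm x (b i) := by
    intro x i s t
    rw [hcomb, herm_add_right x (fun c => s * a i c) (fun c => t * b i c), herm_smul_right,
      herm_smul_right]
  have hL : ∀ (x : Fin d → ℂ) (i : Fin p) (s t : ℂ),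
      herm (fun c => (s • A i + t • B i) c) x =
        (starRingEnd ℂ) s * herm (a i) x + (starRingEnd ℂ) t * herm (b i) x := by
    intro x i s t
    rw [hcomb, herm_add_left (fun c => s * a i c) (fun c => t * b i c), herm_smul_left,
      herm_smul_left]
  have hP : ∀ i (x y : Sp ℂ d), IsProj (Submodule.span ℂ {A i, B i}) x y →
      y = (herm (a i) (fun c => x c) / N) • A i + (herm (b i) (fun c => x c) / N) • B i := by
    rintro i x y ⟨hy, hxy⟩
    obtain ⟨s, t, rfl⟩ := Submodule.mem_span_pair.mp hy
    have hmem : ∀ w ∈ ({A i, B i} : Set (Sp ℂ d)), w ∈ Submodule.span ℂ {A i, B i} :=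
      fun w hw => Submodule.subset_span hw
    have key : ∀ w : Sp ℂ d, w ∈ Submodule.span ℂ {A i, B i} →
        herm (fun c => (x - (s • A i + t • B i)) c) (fun c => w c) = 0 := by
      intro w hw
      have e1 := hxy w hw
      have e2 := hxy (Complex.I • w) (Submodule.smul_mem _ _ hw)
      rw [inner_Sp] at e1 e2
      have e : herm (fun c => (x - (s • A i + t • B i)) c) (fun c => (Complex.I • w) c) =
          Complex.I * herm (fun c => (x - (s • A i + t • B i)) c) (fun c => w c) :=
        herm_smul_right _ _ _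
      rw [e] at e2
      exact Complex.ext e1 (by simpa using e2)
    have kA := key (A i) (hmem _ (by simp))
    have kB := key (B i) (hmem _ (by simp))
    have sub : ∀ z : Fin d → ℂ, herm (fun c => (x - (s • A i + t • B i)) c) z =
        herm (fun c => x c) z - ((starRingEnd ℂ) s * herm (a i) z + (starRingEnd ℂ) t * herm (b i) z) := by
      intro z
      rw [← hL]
      exact herm_sub_left (fun c => x c) (fun c => (s • A i + t • B i) c) z
    have eA : herm (fun c => x c) (a i) = (starRingEnd ℂ) s * N := by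
      have := sub (a i)
      rw [haa, hba, mul_zero, add_zero] at this
      have k : herm (fun c => (x - (s • A i + t • B i)) c) (a i) = 0 := kA
      rw [k] at this
      exact (sub_eq_zero.mp this.symm)
    have eB : herm (fun c => x c) (b i) = (starRingEnd ℂ) t * N := by
      have := sub (b i)
      rw [hbb, hab, mul_zero, zero_add] at this
      have k : herm (fun c => (x - (s • A i + t • B i)) c) (b i) = 0 := kB
      rw [k] at this
      exact (sub_eq_zero.mp this.symm)
    have fA : herm (a i) (fun c => x c) = s * N := by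
      have := congrArg (starRingEnd ℂ) eA
      rw [conj_herm, map_mul, Complex.conj_conj, Complex.conj_ofReal] at this
      exact this
    have fB : herm (b i) (fun c => x c) = t * N := by
      have := congrArg (starRingEnd ℂ) eB
      rw [conj_herm, map_mul, Complex.conj_conj, Complex.conj_ofReal] at this
      exact this
    rw [fA, fB, mul_div_cancel_right₀ _ hN', mul_div_cancel_right₀ _ hN']
  refine ⟨M / N ^ 2, fun i => Submodule.span ℂ {A i, B i}, ?_, ?_, ?_, ?_, ?_⟩
  · positivity
  · rw [div_lt_one (by positivity)]; exact hM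
  · intro i
    have hli : LinearIndependent ℂ ![A i, B i] := by
      rw [LinearIndependent.pair_iff]
      intro s t hst
      have e0 : (fun c => (s • A i + t • B i) c) = fun _ => (0 : ℂ) := by
        funext c
        rw [hst]
        rfl
      have z : ∀ x : Fin d → ℂ, herm x (fun _ => (0 : ℂ)) = 0 := fun x => by simp [herm]
      have eA := hR (a i) i s t
      have eB := hR (b i) i s t
      rw [e0, z, haa, hab, mul_zero, add_zero] at eA
      rw [e0, z, hba, hbb, mul_zero, zero_add] at eB
      exact ⟨by simpa [hN'] using eA.symm, by simpa [hN'] using eB.symm⟩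
    have := finrank_span_eq_card hli
    rw [Matrix.range_cons, Matrix.range_cons, Matrix.range_empty, Set.union_empty,
      Set.singleton_union] at this
    simpa using this
  · -- spanning
    unfold Spans
    by_contra hne
    set T : Submodule ℂ (Sp ℂ d) := ⨆ i, Submodule.span ℂ {A i, B i} with hT
    have hTr : T.restrictScalars ℝ ≠ ⊤ := by
      intro h
      exact hne (Submodule.restrictScalars_eq_top_iff ℝ ℂ _ |>.mp h)
    obtain ⟨w, hw, hw0⟩ := (Submodule.ne_bot_iff _).mp
      (fun h => hTr ((Submodule.orthogonal_eq_bot_iff (K := T.restrictScalars ℝ)).mp h))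
    apply hw0
    have hmem : ∀ i, Submodule.span ℂ {A i, B i} ≤ T := fun i =>
      le_iSup (fun i => Submodule.span ℂ {A i, B i}) i
    have hort : ∀ u ∈ T, herm (fun c => u c) (fun c => w c) = 0 := by
      intro u hu
      have h1 := hw _ hu
      have h2 := hw (Complex.I • u) (T.smul_mem _ hu)
      rw [inner_Sp] at h1 h2
      have e : herm (fun c => (Complex.I • u) c) (fun c => w c) =
          (starRingEnd ℂ) Complex.I * herm (fun c => u c) (fun c => w c) := herm_smul_left _ _ _
      rw [e] at h2
      exact Complex.ext h1 (by simpa using h2)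
    have hall : (fun c => w c) = (0 : Fin d → ℂ) := by
      apply hspan
      · intro i
        exact hort (A i) (hmem i (Submodule.subset_span (by simp)))
      · intro i
        exact hort (B i) (hmem i (Submodule.subset_span (by simp)))
    ext c
    exact congrFun hall c
  · intro i j hij x y z w e1 e2 e3
    have f1 := hP i x y e1
    have f2 := hP j y z e2
    have f3 := hP i z w e3
    set s := herm (a i) (fun c => x c) / N with hs
    set t := herm (b i) (fun c => x c) / N with ht
    have ya := hR (a j) i s t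
    have yb := hR (b j) i s t
    rw [← f1] at ya yb
    have za := hR (a i) j (herm (a j) (fun c => y c) / N) (herm (b j) (fun c => y c) / N)
    have zb := hR (b i) j (herm (a j) (fun c => y c) / N) (herm (b j) (fun c => y c) / N)
    rw [← f2] at za zb
    have ca : herm (a i) (fun c => z c) / N = ((M / N ^ 2 : ℝ) : ℂ) * s := by
      rw [za, ya, yb]
      push_cast
      field_simp
      linear_combination s * h1 i j hij + t * h2 i j hij
    have cb : herm (b i) (fun c => z c) / N = ((M / N ^ 2 : ℝ) : ℂ) * t := by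
      rw [zb, ya, yb]
      push_cast
      field_simp
      linear_combination s * h3 i j hij + t * h4 i j hij
    rw [f3, ca, cb, f1, mul_smul, mul_smul, smul_add]
    rfl

/-- the quaternionic structure of `ℂ ^ 6` -/
noncomputable def Jv (x : Fin 6 → ℂ) : Fin 6 → ℂ :=
  ![-(starRingEnd ℂ) (x 1), (starRingEnd ℂ) (x 0), -(starRingEnd ℂ) (x 3), (starRingEnd ℂ) (x 2),
    -(starRingEnd ℂ) (x 5), (starRingEnd ℂ) (x 4)]

theorem herm_six (x y : Fin 6 → ℂ) : herm x y = (starRingEnd ℂ) (x 0) * y 0
    + (starRingEnd ℂ) (x 1) * y 1 + (starRingEnd ℂ) (x 2) * y 2 + (starRingEnd ℂ) (x 3) * y 3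
    + (starRingEnd ℂ) (x 4) * y 4 + (starRingEnd ℂ) (x 5) * y 5 := by
  simp only [herm, Fin.sum_univ_succ, Fin.sum_univ_zero]
  simp only [add_zero, ← add_assoc]
  rfl

theorem Jv_Jv (x y : Fin 6 → ℂ) : herm (Jv x) (Jv y) = herm y x := by
  rw [herm_six, herm_six]
  simp [Jv]
  ring

theorem herm_Jv (x y : Fin 6 → ℂ) : herm x (Jv y) = -herm y (Jv x) := by
  rw [herm_six, herm_six]
  simp [Jv]
  ring

theorem Jv_herm (x y : Fin 6 → ℂ) : herm (Jv x) y = -herm (Jv y) x := by
  rw [← conj_herm, herm_Jv, map_neg, conj_herm]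

theorem quat_lines {p : ℕ} (a : Fin p → Fin 6 → ℂ) (N M : ℝ) (hN : 0 < N) (hM0 : 0 ≤ M)
    (hM : M < N ^ 2) (haa : ∀ i, herm (a i) (a i) = N)
    (h : ∀ i j, i ≠ j → herm (a i) (a j) * herm (a j) (a i)
      + herm (a i) (Jv (a j)) * herm (Jv (a j)) (a i) = M)
    (hspan : ∀ w : Fin 6 → ℂ, (∀ i, herm (a i) w = 0) → (∀ i, herm (Jv (a i)) w = 0) → w = 0) :
    p ∈ sizes ℂ 2 6 := by
  refine planes_aux a (fun i => Jv (a i)) N M hN hM0 hM haa ?_ ?_ h ?_ ?_ ?_ hspan
  · intro i
    rw [Jv_Jv, haa]
  · intro i
    have := herm_Jv (a i) (a i)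
    have h2 : (2 : ℂ) * herm (a i) (Jv (a i)) = 0 := by linear_combination this
    simpa using h2
  · intro i j hij
    rw [Jv_Jv, herm_Jv (a j) (a i)]
    ring
  · intro i j hij
    rw [Jv_Jv, Jv_herm (a j) (a i)]
    ring
  · intro i j hij
    have e := h i j hij
    rw [Jv_Jv, Jv_Jv]
    rw [Jv_herm (a i) (a j), herm_Jv (a j) (a i)]
    linear_combination e

end Pool.Agent.EI28H
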